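import Pool.Agent.Helper6.LP.St

/-!
# Project LP (MP_5e9b96_nt), module MOA: the first moment
-/

set_option autoImplicit false

noncomputable section

namespace Pool.Agent.Helper6.LP

open Finset
open Pool.Agent.Helper98.LM (QQ)

theorem hMOA (hO : StONE) : StMOA := by
  classical
  intro ε hε
  obtain ⟨B, hB⟩ := hO ε hε
  refine ⟨B, ?_⟩
  intro A Λ p w P a r J M hp hw hPl hΛ hV
  have hw0 : (0 : ℝ) ≤ (w : ℝ) ^ B := by positivity
  have hswap : ∑ m ∈ Icc 1 M, XX A p w P a r J m =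
      ∑ j ∈ TT A p w P r J, (VV p w P a (r + P * j))⁻¹ *
        (((Icc 1 M).filter (fun m : ℕ => Sf p w ((a : ℤ) + P * m) ((r + P * j : ℕ) : ℤ))).card : ℝ) := by
    unfold XX
    simp only [sum_filter]
    rw [sum_comm]
    refine sum_congr rfl fun j _ => ?_
    rw [← sum_filter, sum_const, nsmul_eq_mul, mul_comm]
  rw [hswap]
  have hterm : ∀ j ∈ TT A p w P r J, (1 - ε) * M - Λ * (w : ℝ) ^ B ≤ (VV p w P a (r + P * j))⁻¹ *
      (((Icc 1 M).filter (fun m : ℕ => Sf p w ((a : ℤ) + P * m) ((r + P * j : ℕ) : ℤ))).card : ℝ) := by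
    intro j hj
    have h1 := hV j hj
    have hy : 2 ≤ r + P * j := by
      unfold TT at hj
      have := (mem_filter.1 hj).2.1
      omega
    have h2 := hB p P a (r + P * j) w M hp hPl hw hy
    have hVp : 0 < VV p w P a (r + P * j) := by
      by_contra hc
      push Not at hc
      have : Λ * VV p w P a (r + P * j) ≤ 0 := mul_nonpos_of_nonneg_of_nonpos (by linarith) hc
      linarith
    have hinv : (VV p w P a (r + P * j))⁻¹ ≤ Λ := by
      rw [inv_le_iff_one_le_mul₀ hVp]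
      exact h1
    have h3 := (abs_le.1 h2).1
    obtain ⟨c, hc⟩ : ∃ c : ℝ, c = (((Icc 1 M).filter (fun m : ℕ => Sf p w ((a : ℤ) + P * m) ((r + P * j : ℕ) : ℤ))).card : ℝ) := ⟨_, rfl⟩
    have h3' : -(ε * (M * VV p w P a (r + P * j)) + (w : ℝ) ^ B) ≤ c - M * VV p w P a (r + P * j) := by
      rw [hc]; exact h3
    rw [← hc]
    have h4 : (1 - ε) * (M * VV p w P a (r + P * j)) - (w : ℝ) ^ B ≤ c := by linarith
    have h5 := mul_le_mul_of_nonneg_left h4 (inv_nonneg.2 hVp.le)
    have h6 : (VV p w P a (r + P * j))⁻¹ * ((1 - ε) * (M * VV p w P a (r + P * j)) - (w : ℝ) ^ B) =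
        (1 - ε) * M - (VV p w P a (r + P * j))⁻¹ * (w : ℝ) ^ B := by
      field_simp
    rw [h6] at h5
    have h7 := mul_le_mul_of_nonneg_right hinv hw0
    linarith
  have hs := sum_le_sum hterm
  rw [sum_const, nsmul_eq_mul] at hs
  have he : ((TT A p w P r J).card : ℝ) * ((1 - ε) * M - Λ * (w : ℝ) ^ B) =
      (1 - ε) * (M * ((TT A p w P r J).card : ℝ)) - (TT A p w P r J).card * Λ * (w : ℝ) ^ B := by ring
  rw [he] at hs
  exact hs

end Pool.Agent.Helper6.LP
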