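import Pool.Agent.Helper6.LP.St

/-!
# Project LP (MP_5e9b96_nt), module VLP: lower bound for the density
-/

set_option autoImplicit false

noncomputable section

namespace Pool.Agent.Helper6.LP

open Finset
open Pool.Agent.Helper15.AB (StMT)
open Pool.Agent.Helper60.LZ (js)
open Pool.Agent.Helper98.LM (QQ)

private theorem exp_low {x : ℝ} (h0 : 0 ≤ x) (h1 : x ≤ 1 / 2) : Real.exp (-x - x ^ 2) ≤ 1 - x := by
  have h2 := Real.quadratic_le_exp_of_nonneg (x := x + x ^ 2) (by positivity)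
  have h3 : Real.exp (-x - x ^ 2) = (Real.exp (x + x ^ 2))⁻¹ := by
    rw [← Real.exp_neg]; congr 1; ring
  rw [h3, inv_le_iff_one_le_mul₀ (Real.exp_pos _)]
  have h4 : 1 ≤ (1 - x) * (1 + (x + x ^ 2) + (x + x ^ 2) ^ 2 / 2) := by
    have h5 : (1 - x) * (1 + (x + x ^ 2) + (x + x ^ 2) ^ 2 / 2) =
        1 + x ^ 2 * ((1 - x) * (1 + x) ^ 2 - 2 * x) / 2 := by ring
    rw [h5]
    have h6 : 0 ≤ (1 - x) * (1 + x) ^ 2 - 2 * x := by nlinarith [mul_nonneg h0 (sub_nonneg.2 h1)]
    have h7 : 0 ≤ x ^ 2 * ((1 - x) * (1 + x) ^ 2 - 2 * x) / 2 := by positivity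
    linarith
  exact h4.trans (mul_le_mul_of_nonneg_left h2 (by linarith))

theorem hVLP (hL : StLOP) (hM : StMT) : StVLP := by
  classical
  obtain ⟨C0, hC0, hM⟩ := hM
  refine ⟨Real.exp (-(2 * C0 + 9)), Real.exp_pos _, ?_⟩
  intro p w P a y hp hw hPl hy
  have hlw : 0 < Real.log w := Real.log_pos (by exact_mod_cast (by omega : 1 < w))
  -- the factors
  have hfac : ∀ l ∈ QQ p w, Real.exp (-(2 / (l : ℝ)) - js (y - 2) l / l - 9 / (l : ℝ) ^ 2) ≤
      1 - ((SS P a y l).card : ℝ) / l := by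
    intro l hl
    unfold QQ at hl
    rw [mem_filter, mem_Ioc] at hl
    have hlP : ¬ l ∣ P := fun h => by
      have := hPl l hl.2 h
      omega
    have h1 := (hL P a l hl.2 (by omega) hlP).1 y hy
    have hjs : |js (y - 2) l| ≤ 1 := by
      unfold js
      rcases jacobiSym.trichotomy ((((y - 2 : ℕ) : ℤ)) ^ 2 - 4) l with h | h | h <;> rw [h] <;> norm_num
    have h2 := abs_le.1 hjs
    have hl0 : (8 : ℝ) ≤ l := by exact_mod_cast (by omega : 8 ≤ l)
    obtain ⟨x, hx⟩ : ∃ x : ℝ, x = (2 + js (y - 2) l) / l := ⟨_, rfl⟩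
    have hx0 : 0 ≤ x := by rw [hx]; apply div_nonneg <;> linarith
    have hx1 : x ≤ 1 / 2 := by
      rw [hx, div_le_div_iff₀ (by linarith) (by norm_num)]
      linarith
    have hx2 : x ^ 2 ≤ 9 / (l : ℝ) ^ 2 := by
      rw [hx, div_pow]
      apply div_le_div_of_nonneg_right _ (by positivity)
      nlinarith
    have h3 := exp_low hx0 hx1
    have h4 : ((SS P a y l).card : ℝ) / l ≤ x := by
      rw [hx]
      exact div_le_div_of_nonneg_right h1 (by linarith)
    have h5 : Real.exp (-(2 / (l : ℝ)) - js (y - 2) l / l - 9 / (l : ℝ) ^ 2) ≤ Real.exp (-x - x ^ 2) := by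
      apply Real.exp_le_exp.2
      have : -(2 / (l : ℝ)) - js (y - 2) l / l = -x := by rw [hx]; ring
      linarith
    linarith
  have hprod : Real.exp (∑ l ∈ QQ p w, (-(2 / (l : ℝ)) - js (y - 2) l / l - 9 / (l : ℝ) ^ 2)) ≤ VV p w P a y := by
    rw [Real.exp_sum]
    exact prod_le_prod (fun _ _ => (Real.exp_pos _).le) hfac
  have hsum : ∑ l ∈ QQ p w, (-(2 / (l : ℝ)) - js (y - 2) l / l - 9 / (l : ℝ) ^ 2) =
      -(2 * ∑ l ∈ QQ p w, 1 / (l : ℝ)) - cs p w y - 9 * ∑ l ∈ QQ p w, 1 / (l : ℝ) ^ 2 := by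
    unfold cs
    rw [sum_sub_distrib, sum_sub_distrib, sum_neg_distrib, mul_sum, mul_sum]
    congr 1
    · congr 2
      exact sum_congr rfl fun l _ => by ring
    · exact sum_congr rfl fun l _ => by ring
  -- Mertens
  have hmer : ∑ l ∈ QQ p w, 1 / (l : ℝ) ≤ Real.log (Real.log w) + C0 := by
    have h1 := hM (w : ℝ) (by exact_mod_cast hw)
    rw [Nat.floor_natCast] at h1
    have h2 : ∑ l ∈ QQ p w, 1 / (l : ℝ) ≤ ∑ l ∈ (Icc 1 w).filter Nat.Prime, 1 / (l : ℝ) := by
      apply sum_le_sum_of_subset_of_nonneg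
      · intro l hl
        unfold QQ at hl
        rw [mem_filter, mem_Ioc] at hl
        rw [mem_filter, mem_Icc]
        exact ⟨⟨by omega, hl.1.2⟩, hl.2⟩
      · intro l _ _
        positivity
    have h3 := (abs_le.1 h1).2
    linarith
  have hsq : ∑ l ∈ QQ p w, 1 / (l : ℝ) ^ 2 ≤ 1 := by
    by_cases hpw : p ≤ w
    · have h1 : ∑ l ∈ QQ p w, 1 / (l : ℝ) ^ 2 ≤ ∑ l ∈ Ioc p w, ((l : ℝ) ^ 2)⁻¹ := by
        unfold QQ
        rw [sum_filter]
        apply sum_le_sum
        intro l _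
        split_ifs
        · rw [one_div]
        · positivity
      have h2 := sum_Ioc_inv_sq_le_sub (α := ℝ) (k := p) (n := w) (by omega) hpw
      have h3 : (0 : ℝ) ≤ (w : ℝ)⁻¹ := by positivity
      have h4 : (p : ℝ)⁻¹ ≤ 1 := by
        apply inv_le_one_of_one_le₀
        exact_mod_cast (by omega : 1 ≤ p)
      linarith
    · have : QQ p w = ∅ := by
        unfold QQ
        rw [Ioc_eq_empty (by omega)]
        rfl
      rw [this]
      simp
  have hcs := le_abs_self (cs p w y)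
  refine le_trans ?_ hprod
  rw [hsum]
  have hE : Real.exp (-(2 * C0 + 9)) * Real.exp (-|cs p w y|) / Real.log w ^ 2 =
      Real.exp (-(2 * (Real.log (Real.log w) + C0)) - |cs p w y| - 9) := by
    have h1 : Real.log w ^ 2 = Real.exp (2 * Real.log (Real.log w)) := by
      rw [two_mul, Real.exp_add, Real.exp_log hlw, pow_two]
    rw [h1, ← Real.exp_add, ← Real.exp_sub]
    congr 1
    ring
  rw [hE]
  apply Real.exp_le_exp.2
  linarith

end Pool.Agent.Helper6.LP
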