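import Pool.Agent.Helper18.TR.Final
import Pool.Agent.Helper15.AB.M_MT
import Pool.Agent.Helper60.LZ.All0
import Pool.Agent.Helper60.LZ.M_BAD
import Pool.Agent.Helper1.LP.M_SV6
import Pool.Agent.Helper41.LP.M_LOP
import Pool.Agent.Helper61.LP.M_GG8
import Pool.Agent.Helper74.LP.M_GAP
import Pool.Agent.Helper6.LP.M_VLP
import Pool.Agent.Helper86.LP.M_CSM
import Pool.Agent.Helper7.LP.M_SMA
import Pool.Agent.Helper24.LP.M_TGO
import Pool.Agent.Helper40.LP.M_ONE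
import Pool.Agent.Helper89.LP.M_PRP
import Pool.Agent.Helper6.LP.M_MOA
import Pool.Agent.Helper33.LP.M_MOB
import Pool.Agent.Helper29.LP.M_CHP
import Pool.Agent.Helper69.LP.M_RRP
import Pool.Agent.Helper6.LP.Fn2

/-!
# Project LP: assembly
-/

set_option autoImplicit false

namespace Pool.Agent.Helper6.LP

open Pool.Agent
open Finset
open Pool.Agent.Helper60.LZ (StBAD)

theorem pSV6 : StSV6 := Helper1.LP.hSV6 Helper18.TR.fl

theorem pLOP : StLOP := Helper41.LP.hLOP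

theorem pGAP : StGAP := Helper74.LP.hGAP Helper61.LP.hGG8 Helper15.AB.hMT

theorem pBAD : StBAD := Helper60.LZ.hBAD Helper60.LZ.qMSQ

theorem pVLP : StVLP := hVLP pLOP Helper15.AB.hMT

theorem pTGO : StTGO := Helper24.LP.hTGO (Helper7.LP.hSMA Helper86.LP.hCSM) pBAD Helper15.AB.hMT

theorem pONE : StONE := Helper40.LP.hONE pSV6 pLOP

theorem pPRP : StPRP := Helper89.LP.hPRP pSV6 pLOP

theorem pMOA : StMOA := hMOA pONE

theorem pMOB : StMOB := Helper33.LP.hMOB pONE pPRP pGAP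

theorem pCHP : StCHP := Helper29.LP.hCHP pMOA pMOB pTGO pVLP

open Classical in
theorem pFNP : ∀ ε : ℝ, 0 < ε → ∃ C κ : ℝ, 0 < C ∧ 0 < κ ∧ ∃ N₀ : ℕ, ∀ N : ℕ, N₀ ≤ N →
    (((Icc 1 N).filter (fun n => ¬ Goodk C κ n)).card : ℝ) ≤ ε * N :=
  hFNP2 pCHP Helper69.LP.hRRP

end Pool.Agent.Helper6.LP
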