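import Pool.Agent.Helper6.LP.St

/-!
# Project LP (MP_5e9b96_nt), module TGO: at least half of the `j` are good
-/

set_option autoImplicit false

noncomputable section

namespace Pool.Agent.Helper6.LP

open Finset
open Pool.Agent.Helper15.AB (StMT)
open Pool.Agent.Helper60.LZ (js bp bl StBAD)
open Pool.Agent.Helper98.LM (QQ)

private theorem js_le (t l : ℕ) : |js t l| ≤ 1 := by
  unfold js
  rcases jacobiSym.trichotomy ((t : ℤ) ^ 2 - 4) l with h | h | h <;> rw [h] <;> norm_num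

private theorem QQ_split {p u w : ℕ} (h1 : p ≤ u) (h2 : u ≤ w) (f : ℕ → ℝ) :
    ∑ l ∈ QQ p w, f l = ∑ l ∈ QQ p u, f l + ∑ l ∈ QQ u w, f l := by
  have h : QQ p w = QQ p u ∪ QQ u w := by
    ext l
    simp only [QQ, mem_union, mem_filter, mem_Ioc]
    constructor
    · rintro ⟨⟨h3, h4⟩, h5⟩
      by_cases h6 : l ≤ u
      · exact Or.inl ⟨⟨h3, h6⟩, h5⟩
      · exact Or.inr ⟨⟨by omega, h4⟩, h5⟩
    · rintro (⟨⟨h3, h4⟩, h5⟩ | ⟨⟨h3, h4⟩, h5⟩)
      · exact ⟨⟨h3, by omega⟩, h5⟩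
      · exact ⟨⟨by omega, h4⟩, h5⟩
  have hd : Disjoint (QQ p u) (QQ u w) := by
    rw [Finset.disjoint_left]
    intro l h3 h4
    simp only [QQ, mem_filter, mem_Ioc] at h3 h4
    omega
  rw [h, sum_union hd]

private theorem blocks {j0 : ℕ} (f : ℕ → ℝ) : ∀ J : ℕ, j0 ≤ J →
    ∑ l ∈ QQ (2 ^ j0 - 1) (2 ^ J - 1), f l = ∑ j ∈ Ico j0 J, ∑ q ∈ bp j, f q := by
  intro J hJ
  induction J, hJ using Nat.le_induction with
  | base => simp [QQ]
  | succ J hJ ih =>
    have hp : 2 ^ j0 ≤ 2 ^ J := Nat.pow_le_pow_right (by norm_num) hJ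
    have hs : 2 ^ (J + 1) = 2 * 2 ^ J := by rw [pow_succ]; ring
    have h1 : 0 < 2 ^ j0 := by positivity
    have h : QQ (2 ^ J - 1) (2 ^ (J + 1) - 1) = bp J := by
      ext l
      simp only [QQ, bp, mem_filter, mem_Ioc, mem_Ico]
      rw [hs]
      constructor
      · rintro ⟨⟨h1, h2⟩, h3⟩
        exact ⟨⟨by omega, by omega⟩, h3⟩
      · rintro ⟨⟨h1, h2⟩, h3⟩
        exact ⟨⟨by omega, by omega⟩, h3⟩
    rw [QQ_split (u := 2 ^ J - 1) (by omega) (by omega), ih, h, Finset.sum_Ico_succ_top hJ]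

private theorem cube (J : ℕ) : ∃ L : ℕ, L ^ 3 ≤ J ∧ J < (L + 1) ^ 3 := by
  induction J with
  | zero => exact ⟨0, by norm_num, by norm_num⟩
  | succ J ih =>
    obtain ⟨L, h1, h2⟩ := ih
    by_cases h : J + 1 < (L + 1) ^ 3
    · exact ⟨L, by omega, h⟩
    · refine ⟨L + 1, by omega, ?_⟩
      have : (L + 1) ^ 3 < (L + 1 + 1) ^ 3 := Nat.pow_lt_pow_left (by omega) (by norm_num)
      omega

theorem hTGO (hS : StSMA) (hB : StBAD) (hM : StMT) : StTGO := by
  obtain ⟨C0, hC0, hM⟩ := hM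
  obtain ⟨CB, hCB, hB⟩ := hB
  have hl20 : 0 < Real.log 20 := Real.log_pos (by norm_num)
  refine ⟨2 + Real.log 20 + 2 * C0, by linarith, ?_⟩
  intro p P hp hP hPl c₁ hc₁
  -- the large parameters
  have hE1 : ∀ᶠ I : ℕ in Filter.atTop, (8 * P + p + 4 : ℝ) ^ 3 ≤ c₁ * (I : ℝ) ^ 2 := by
    have h : Filter.Tendsto (fun I : ℕ => c₁ * (I : ℝ) ^ 2) Filter.atTop Filter.atTop := by
      apply Filter.Tendsto.const_mul_atTop hc₁
      exact (Filter.tendsto_pow_atTop (by norm_num)).comp tendsto_natCast_atTop_atTop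
    exact h.eventually_ge_atTop _
  have hE2 : ∀ᶠ I : ℕ in Filter.atTop, (8192 * P ^ 4 * I ^ 12 : ℝ) ≤ 2 ^ I := by
    have h := tendsto_pow_const_div_const_pow_of_one_lt 12 (r := (2 : ℝ)) (by norm_num)
    have hP0 : (0 : ℝ) < P := by exact_mod_cast hP
    have h2 := h.eventually_le_const (u := 1 / (8192 * (P : ℝ) ^ 4)) (by positivity)
    filter_upwards [h2] with I hI
    rw [div_le_div_iff₀ (by positivity) (by positivity)] at hI
    linarith
  have hE3 : ∀ᶠ I : ℕ in Filter.atTop, Real.log I ^ 2 ≤ c₁ / (40 * CB) * I := by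
    have h := (Real.isLittleO_pow_log_id_atTop (n := 2)).def (c := c₁ / (40 * CB)) (by positivity)
    have h2 := tendsto_natCast_atTop_atTop (R := ℝ) |>.eventually h
    filter_upwards [h2] with I hI
    simp only [id, Real.norm_eq_abs] at hI
    rw [abs_of_nonneg (by positivity), abs_of_nonneg (by positivity)] at hI
    exact hI
  have hE4 : ∀ᶠ I : ℕ in Filter.atTop, P + 2 ≤ I := Filter.eventually_ge_atTop _
  obtain ⟨I₀, hI₀⟩ := Filter.eventually_atTop.1 (hE1.and (hE2.and (hE3.and hE4)))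
  refine ⟨I₀, ?_⟩
  intro I J r hI hcJ hJI hr hrP
  obtain ⟨e1, e2, e3, e4⟩ := hI₀ I hI
  obtain ⟨L, hL1, hL2⟩ := cube J
  have hP0 : (1 : ℝ) ≤ P := by exact_mod_cast hP
  have hJbig : (8 * P + p + 4) ^ 3 ≤ J := by
    have : ((8 * P + p + 4 : ℕ) : ℝ) ^ 3 ≤ J := by push_cast; linarith
    exact_mod_cast this
  have hLbig : 8 * P + p + 4 ≤ L := by
    by_contra hc
    have h1 : L + 1 ≤ 8 * P + p + 4 := by omega
    have h2 := Nat.pow_le_pow_left h1 3
    omega
  have hJ40 : 8000 ≤ J := by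
    have h1 : 20 ≤ 8 * P + p + 4 := by omega
    have h2 := Nat.pow_le_pow_left h1 3
    omega
  have hLJ : L ≤ J := by
    have : L ≤ L ^ 3 := Nat.le_self_pow (by norm_num) L
    omega
  obtain ⟨K, hK⟩ : ∃ K, K = P * (J + 1) := ⟨_, rfl⟩
  have hJK : J + 1 ≤ K := by
    rw [hK]; exact Nat.le_mul_of_pos_left _ hP
  obtain ⟨j0, hj0⟩ : ∃ j0, j0 = Nat.clog 2 (256 * K ^ 4) := ⟨_, rfl⟩
  have hKpos : 1 ≤ K ^ 4 := Nat.one_le_pow _ _ (by omega)
  have hj1 : 256 * K ^ 4 ≤ 2 ^ j0 := by rw [hj0]; exact Nat.le_pow_clog (by norm_num) _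
  have hj2 : 2 ^ j0 ≤ 512 * K ^ 4 := by
    have h1 := Nat.pow_pred_clog_lt_self (b := 2) (by norm_num) (x := 256 * K ^ 4) (by omega)
    rw [← hj0] at h1
    have h2 : 0 < j0 := by
      by_contra hc
      have : j0 = 0 := by omega
      rw [this] at hj1
      omega
    have h3 : 2 ^ j0 = 2 * 2 ^ j0.pred := by
      rw [← pow_succ']
      congr 1
      exact (Nat.succ_pred_eq_of_pos h2).symm
    omega
  have hK4 : K ≤ K ^ 4 := Nat.le_self_pow (by norm_num) K
  have hL20 : 2 ^ j0 ≤ L ^ 20 := by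
    have h1 : J + 1 ≤ 8 * L ^ 3 := by
      have h2 : L + 1 ≤ 2 * L := by omega
      have h3 := Nat.pow_le_pow_left h2 3
      have h4 : (2 * L) ^ 3 = 8 * L ^ 3 := by ring
      omega
    have h2 : K ≤ L * L ^ 3 := by
      rw [hK]
      calc P * (J + 1) ≤ P * (8 * L ^ 3) := Nat.mul_le_mul_left _ h1
        _ = (8 * P) * L ^ 3 := by ring
        _ ≤ L * L ^ 3 := Nat.mul_le_mul_right _ (by omega)
    have h3 : K ^ 4 ≤ L ^ 16 := by
      have := Nat.pow_le_pow_left h2 4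
      calc K ^ 4 ≤ (L * L ^ 3) ^ 4 := this
        _ = L ^ 16 := by ring
    have h4 : 512 ≤ L ^ 4 := by
      have h5 : 20 ≤ L := by omega
      have h6 := Nat.pow_le_pow_left h5 4
      omega
    calc 2 ^ j0 ≤ 512 * K ^ 4 := hj2
      _ ≤ L ^ 4 * L ^ 16 := Nat.mul_le_mul h4 h3
      _ = L ^ 20 := by ring
  have hI2 : 2 ≤ I := by omega
  have hjI : j0 ≤ I := by
    have h1 : 2 ^ j0 ≤ 2 ^ I := by
      have h2 : K ≤ P * (2 * I ^ 3) := by
        rw [hK]
        apply Nat.mul_le_mul_left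
        have : 1 ≤ I ^ 3 := Nat.one_le_pow _ _ (by omega)
        omega
      have h3 : 512 * K ^ 4 ≤ 8192 * P ^ 4 * I ^ 12 := by
        calc 512 * K ^ 4 ≤ 512 * (P * (2 * I ^ 3)) ^ 4 := Nat.mul_le_mul_left _ (Nat.pow_le_pow_left h2 4)
          _ = 8192 * P ^ 4 * I ^ 12 := by ring
      have h4 : 8192 * P ^ 4 * I ^ 12 ≤ 2 ^ I := by exact_mod_cast e2
      omega
    exact (Nat.pow_le_pow_iff_right (by norm_num)).1 h1
  -- the middle primes
  have hMM : ∀ y : ℕ, 3 ≤ y → |∑ l ∈ QQ 0 y, (1 : ℝ) / l - Real.log (Real.log y)| ≤ C0 := by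
    intro y hy
    have h := hM (y : ℝ) (by exact_mod_cast hy)
    rw [Nat.floor_natCast] at h
    exact h
  have hmid : ∑ l ∈ QQ L (2 ^ j0 - 1), (1 : ℝ) / l ≤ Real.log 20 + 2 * C0 := by
    have h1 := QQ_split (p := 0) (u := L) (w := 2 ^ j0 - 1) (by omega) (by omega) (fun l => (1 : ℝ) / l)
    have h2 := (abs_le.1 (hMM (2 ^ j0 - 1) (by omega))).2
    have h3 := (abs_le.1 (hMM L (by omega))).1
    have hL0 : (20 : ℝ) ≤ L := by exact_mod_cast (by omega : 20 ≤ L)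
    have hlL : 0 < Real.log L := Real.log_pos (by linarith)
    have h4 : Real.log (Real.log ((2 ^ j0 - 1 : ℕ) : ℝ)) ≤ Real.log (20 * Real.log L) := by
      have h5 : (3 : ℝ) ≤ ((2 ^ j0 - 1 : ℕ) : ℝ) := by exact_mod_cast (by omega : 3 ≤ 2 ^ j0 - 1)
      apply Real.log_le_log (Real.log_pos (by linarith))
      have h6 : ((2 ^ j0 - 1 : ℕ) : ℝ) ≤ (L : ℝ) ^ 20 := by
        exact_mod_cast (by omega : 2 ^ j0 - 1 ≤ L ^ 20)
      have h7 := Real.log_le_log (by linarith) h6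
      rwa [Real.log_pow, Nat.cast_ofNat] at h7
    rw [Real.log_mul (by norm_num) hlL.ne'] at h4
    linarith
  -- the splitting
  have hsplit : ∀ y : ℕ, |cs p (2 ^ I - 1) y| ≤ |cs p L y| + (Real.log 20 + 2 * C0) + ∑ j ∈ Ico j0 I, |bl (y - 2) j| := by
    intro y
    have hpw : 2 ^ j0 ≤ 2 ^ I := Nat.pow_le_pow_right (by norm_num) hjI
    have h1 := QQ_split (p := p) (u := L) (w := 2 ^ I - 1) (by omega) (by omega) (fun l => js (y - 2) l / l)
    have h2 := QQ_split (p := L) (u := 2 ^ j0 - 1) (w := 2 ^ I - 1) (by omega) (by omega) (fun l => js (y - 2) l / l)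
    have h3 := blocks (j0 := j0) (fun l => js (y - 2) l / l) I hjI
    have h4 : ∑ j ∈ Ico j0 I, ∑ q ∈ bp j, (fun l : ℕ => js (y - 2) l / l) q = ∑ j ∈ Ico j0 I, bl (y - 2) j := rfl
    have h5 : |∑ l ∈ QQ L (2 ^ j0 - 1), js (y - 2) l / l| ≤ Real.log 20 + 2 * C0 := by
      refine le_trans (abs_sum_le_sum_abs _ _) (le_trans (sum_le_sum fun l _ => ?_) hmid)
      rw [abs_div, abs_of_nonneg (Nat.cast_nonneg l : (0 : ℝ) ≤ l)]
      exact div_le_div_of_nonneg_right (js_le _ _) (Nat.cast_nonneg l)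
    have h6 : |∑ j ∈ Ico j0 I, bl (y - 2) j| ≤ ∑ j ∈ Ico j0 I, |bl (y - 2) j| := abs_sum_le_sum_abs _ _
    have h7 : cs p (2 ^ I - 1) y = cs p L y + (∑ l ∈ QQ L (2 ^ j0 - 1), js (y - 2) l / l + ∑ j ∈ Ico j0 I, bl (y - 2) j) := by
      unfold cs
      rw [h1, h2, h3, h4]
    rw [h7]
    have h8 := abs_add_le (cs p L y) (∑ l ∈ QQ L (2 ^ j0 - 1), js (y - 2) l / l + ∑ j ∈ Ico j0 I, bl (y - 2) j)
    have h9 := abs_add_le (∑ l ∈ QQ L (2 ^ j0 - 1), js (y - 2) l / l) (∑ j ∈ Ico j0 I, bl (y - 2) j)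
    linarith
  -- the exceptional sets
  classical
  obtain ⟨E1, hE1⟩ : ∃ E : Finset ℕ, E = (Icc 1 J).filter (fun j : ℕ => 1 < |cs p L (r + P * j)|) := ⟨_, rfl⟩
  obtain ⟨E2, hE2⟩ : ∃ E : Finset ℕ, E = (Icc 6 J).filter (fun j : ℕ => 1 < ∑ i ∈ Ico j0 I, |bl (r + P * j - 2) i|) := ⟨_, rfl⟩
  have hc1 : (E1.card : ℝ) ≤ J / 8 := by
    rw [hE1]
    exact hS p P r J L hp hP hPl hr hL1
  have hc2 : (E2.card : ℝ) ≤ J / 8 := by
    have h1 := hB K j0 I (by omega) hj1 hjI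
    have h2 : E2.card ≤ ((Icc 4 K).filter (fun t => 1 < ∑ j ∈ Ico j0 I, |bl t j|)).card := by
      apply Finset.card_le_card_of_injOn (fun j => r + P * j - 2)
      · intro j hj
        rw [hE2] at hj
        simp only [coe_filter, mem_Icc, Set.mem_ofPred_eq] at hj ⊢
        have h3 : j ≤ P * j := Nat.le_mul_of_pos_left _ hP
        have h4 : P * j ≤ P * J := Nat.mul_le_mul_left _ hj.1.2
        have h5 : K = P * J + P := by rw [hK]; ring
        exact ⟨⟨by omega, by omega⟩, hj.2⟩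
      · intro j hj j' hj' h
        rw [hE2] at hj hj'
        simp only [coe_filter, mem_Icc, Set.mem_ofPred_eq] at hj hj' h
        have h3 : j ≤ P * j := Nat.le_mul_of_pos_left _ hP
        have h3' : j' ≤ P * j' := Nat.le_mul_of_pos_left _ hP
        have h4 : P * j = P * j' := by omega
        exact Nat.eq_of_mul_eq_mul_left hP h4
    have h3 : (E2.card : ℝ) ≤ CB * (I * Real.log I * Real.log K) := le_trans (by exact_mod_cast h2) h1
    refine h3.trans ?_
    have hIr : (2 : ℝ) ≤ I := by exact_mod_cast hI2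
    have hlI : 0 < Real.log I := Real.log_pos (by linarith)
    have h4 : Real.log K ≤ 5 * Real.log I := by
      have h5 : K ≤ I ^ 5 := by
        have h6 : K ≤ P * (2 * I ^ 3) := by
          rw [hK]
          apply Nat.mul_le_mul_left
          have : 1 ≤ I ^ 3 := Nat.one_le_pow _ _ (by omega)
          omega
        calc K ≤ P * (2 * I ^ 3) := h6
          _ ≤ I * (I * I ^ 3) := Nat.mul_le_mul (by omega) (Nat.mul_le_mul_right _ hI2)
          _ = I ^ 5 := by ring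
      have h7 : (K : ℝ) ≤ (I : ℝ) ^ 5 := by exact_mod_cast h5
      have h8 := Real.log_le_log (by exact_mod_cast (by omega : 0 < K)) h7
      rwa [Real.log_pow, Nat.cast_ofNat] at h8
    have h9 : CB * (I * Real.log I * Real.log K) ≤ CB * (I * Real.log I * (5 * Real.log I)) := by
      have : (0 : ℝ) ≤ I * Real.log I := by positivity
      exact mul_le_mul_of_nonneg_left (mul_le_mul_of_nonneg_left h4 this) hCB.le
    refine h9.trans ?_
    have h10 : CB * (I * Real.log I * (5 * Real.log I)) = 5 * CB * I * Real.log I ^ 2 := by ring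
    rw [h10]
    have h11 : 5 * CB * I * Real.log I ^ 2 ≤ 5 * CB * I * (c₁ / (40 * CB) * I) :=
      mul_le_mul_of_nonneg_left e3 (by positivity)
    have h12 : 5 * CB * I * (c₁ / (40 * CB) * I) = c₁ * (I : ℝ) ^ 2 / 8 := by
      field_simp
      ring
    linarith
  have hcov : Icc 1 J ⊆ TT (2 + Real.log 20 + 2 * C0) p (2 ^ I - 1) P r J ∪ (E1 ∪ (E2 ∪ Icc 1 5)) := by
    intro j hj
    by_contra hc
    simp only [mem_union, not_or] at hc
    obtain ⟨hc1, hc2, hc3, hc4⟩ := hc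
    simp only [mem_Icc] at hj
    have h6 : 6 ≤ j := by
      by_contra h
      exact hc4 (mem_Icc.2 ⟨hj.1, by omega⟩)
    have h7 : |cs p L (r + P * j)| ≤ 1 := by
      by_contra h
      push Not at h
      apply hc2
      rw [hE1, mem_filter, mem_Icc]
      exact ⟨hj, h⟩
    have h8 : ∑ i ∈ Ico j0 I, |bl (r + P * j - 2) i| ≤ 1 := by
      by_contra h
      push Not at h
      apply hc3
      rw [hE2, mem_filter, mem_Icc]
      exact ⟨⟨h6, hj.2⟩, h⟩
    apply hc1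
    unfold TT
    rw [mem_filter, mem_Icc]
    have h3 : j ≤ P * j := Nat.le_mul_of_pos_left _ hP
    refine ⟨hj, by omega, ?_⟩
    have h9 := hsplit (r + P * j)
    linarith
  have hcard := card_le_card hcov
  have hc5 : (Icc 1 J).card ≤ (TT (2 + Real.log 20 + 2 * C0) p (2 ^ I - 1) P r J).card + (E1.card + (E2.card + 5)) := by
    refine hcard.trans ((card_union_le _ _).trans ?_)
    refine Nat.add_le_add_left ((card_union_le _ _).trans ?_) _
    refine Nat.add_le_add_left ((card_union_le _ _).trans ?_) _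
    simp
  rw [Nat.card_Icc, Nat.add_sub_cancel] at hc5
  have hc6 : (J : ℝ) ≤ (TT (2 + Real.log 20 + 2 * C0) p (2 ^ I - 1) P r J).card + (E1.card + (E2.card + 5)) := by
    exact_mod_cast hc5
  have hJr : (8000 : ℝ) ≤ J := by exact_mod_cast hJ40
  linarith

end Pool.Agent.Helper6.LP
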