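import Pool.Agent.Helper98.LM.St
import Pool.Agent.Helper60.LZ.St

/-!
# Project LP (MP_5e9b96_nt): for almost all `n` there is `y ≤ C (log n) ^ 2` such that `x + n y` and `x ^ 2 + n y ^ 2`, `x = n - y`, have at most `R` prime factors.
Statements of the modules, with proofs.

Models: project LM (`Pool/Agent/Helper98/LM/St.lean`, all modules closed: `Pool/Agent/*/LM/M_*.lean`) and project LZ (`Pool/Agent/Helper60/LZ/St.lean`). Fix a large `p`, `P = ∏_{q ≤ p} q`, a class `n ≡ a (P)`, `n = a + P m`, `1 ≤ m ≤ M`, and `y = r + P j`, `1 ≤ j ≤ J`, where `r` is chosen such that both numbers are prime to `P` (RRP).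
`w = 2 ^ I - 1` is about `M ^ δ`. For each `y` the exact density of the `m` with no prime factor in `(p, w]` is `V_y = VV p w P a y`; the number of classes modulo `l` is at most `2 + χ_y(l)`, `χ_y(l) = js (y - 2) l = (y (y - 4) / l)`. For at least half of the `j` (the set `TT`) the character sum `cs p w y = ∑ χ_y(l) / l` is bounded
(small primes: mean square, SMA; large primes: the large sieve, BAD of LZ; primes in between trivially), so `V_y ≥ c / (log w) ^ 2`. `XX` counts the good `j` with the weight `1 / V_y`: its mean value over `m` is `|TT|`, and its variance is small: the correlation of `y`, `z` comes from the primes `l ∣ DD y z`, whose effect is `1 + o(1)` in the mean.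
-/

set_option autoImplicit false

noncomputable section

namespace Pool.Agent.Helper6.LP

open Finset
open Pool.Agent.Helper18.TR (StFL)
open Pool.Agent.Helper15.AB (StMT)
open Pool.Agent.Helper60.LZ (js bp bl StBAD)
open Pool.Agent.Helper98.LM (QQ)

/-- the first number -/
def fa (n y : ℤ) : ℤ := n - y + n * y

/-- the second number -/
def fb (n y : ℤ) : ℤ := (n - y) ^ 2 + n * y ^ 2

/-- their product -/
def ff (n y : ℤ) : ℤ := fa n y * fb n y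

/-- the classes of `m` modulo `l` with `l ∣ ff (a + P m) y` -/
def SS (P a y l : ℕ) : Finset ℕ := (range l).filter (fun s : ℕ => (l : ℤ) ∣ ff ((a : ℤ) + P * s) y)

/-- the density for `y` -/
def VV (p w P a y : ℕ) : ℝ := ∏ l ∈ QQ p w, (1 - ((SS P a y l).card : ℝ) / l)

/-- no prime factor in `(p, w]` -/
def Sf (p w : ℕ) (n y : ℤ) : Prop := ∀ l ∈ QQ p w, ¬ (l : ℤ) ∣ ff n y

/-- the character sum -/
def cs (p w y : ℕ) : ℝ := ∑ l ∈ QQ p w, js (y - 2) l / l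

open Classical in
/-- the good `j` -/
def TT (A : ℝ) (p w P r J : ℕ) : Finset ℕ :=
  (Icc 1 J).filter (fun j : ℕ => 6 ≤ r + P * j ∧ |cs p w (r + P * j)| ≤ A)

open Classical in
/-- the weighted number of the good `j` for which both numbers at `n = a + P m`, `y = r + P j` have no prime factor in `(p, w]` -/
def XX (A : ℝ) (p w P a r J m : ℕ) : ℝ :=
  ∑ j ∈ (TT A p w P r J).filter (fun j : ℕ => Sf p w ((a : ℤ) + P * m) ((r + P * j : ℕ) : ℤ)), (VV p w P a (r + P * j))⁻¹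

/-- the resultant of `fa n y` and `fb n z` (in `n`) -/
def rA (y z : ℕ) : ℤ := (y : ℤ) ^ 2 + y * (y + 1) * ((z : ℤ) ^ 2 - 2 * z) + (z : ℤ) ^ 2 * (y + 1) ^ 2

/-- the resultant of `fb n y` and `fb n z`, divided by `(y - z) ^ 2` -/
def rB (y z : ℕ) : ℤ := ((y : ℤ) + z) ^ 2 + 2 * y * z * ((y : ℤ) + z - 2)

/-- the correlation of `y`, `z` -/
def DD (y z : ℕ) : ℕ := ((y : ℤ) - z).natAbs * (rA y z).natAbs * (rA z y).natAbs * (rB y z).natAbs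

/-- (SV6, assume `hF : StFL`.) The sieve with at most six classes. PROOF. Word for word `Pool/Agent/Helper2/LM/M_SV.lean` (`StSV` of LM) with `κ = 6`, `g l = |S l| / l ≤ 6 / l ≤ 1 / 2` (`12 ≤ l`). -/
def StSV6 : Prop := ∀ ε : ℝ, 0 < ε → ∃ B : ℕ, ∀ w M : ℕ, 2 ≤ w → ∀ (Q : Finset ℕ) (S : ℕ → Finset ℕ),
  (∀ l ∈ Q, l.Prime ∧ 12 ≤ l ∧ l ≤ w) → (∀ l ∈ Q, (∀ s ∈ S l, s < l) ∧ (S l).card ≤ 6) →
  |(((Icc 1 M).filter (fun m : ℕ => ∀ l ∈ Q, m % l ∉ S l)).card : ℝ) - M * ∏ l ∈ Q, (1 - ((S l).card : ℝ) / l)| ≤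
    ε * (M * ∏ l ∈ Q, (1 - ((S l).card : ℝ) / l)) + (w : ℝ) ^ B

/-- (LOP, no hypotheses.) Local densities. `l ∤ P`, so `s ↦ a + P s` is a bijection modulo `l`: count the `n` modulo `l`. PROOF. First part: `fa n y = (y + 1) n - y` has at most one root (none if `l ∣ y + 1`, then `- y = 1`); `4 fb n y = (2 n + y ^ 2 - 2 y) ^ 2 - y ^ 3 (y - 4)`, and
`y (y - 4) = (y - 2) ^ 2 - 4` has the symbol `χ = js (y - 2) l`: if `χ = -1` then `y ^ 3 (y - 4)` is not a square and there is no root, if `χ = 0` it is `0` and there is one root, and there are never more than two: at most `1 + χ` roots. Second part: a common root `n` modulo `l`. If `fa n y = fa n z = 0`, subtract: `(y - z)(n - 1) = 0`; `n = 1` gives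
`1 = 0`; so `l ∣ y - z`. If `fa n y = 0 = fb n z`: `y + 1 ≠ 0` (see above), `n (y + 1) = y`, and `(y + 1) ^ 2 fb n z = rA y z` (as `fb n z = n ^ 2 + (z ^ 2 - 2 z) n + z ^ 2`), so `l ∣ rA y z`; in the same way `l ∣ rA z y`. If `fb n y = 0 = fb n z`, subtract: `(y - z) ((y + z - 2) n + (y + z)) = 0`; if `l ∤ y - z`, then
`(y + z - 2) n = - (y + z)` and `(y + z - 2) ^ 2 fb n y = (y + z) ^ 2 - (y ^ 2 - 2 y)(y + z)(y + z - 2) + y ^ 2 (y + z - 2) ^ 2 = rB y z`: `l ∣ rB y z`. Models: `Pool/Agent/Helper26/LM/M_LOC.lean`, `Pool/Agent/Helper22/LZ/M_FYB.lean`. -/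
def StLOP : Prop := ∀ P a l : ℕ, l.Prime → 3 < l → ¬ l ∣ P →
  (∀ y : ℕ, 2 ≤ y → ((SS P a y l).card : ℝ) ≤ 2 + js (y - 2) l) ∧
  ∀ y z : ℕ, ¬ l ∣ DD y z → Disjoint (SS P a y l) (SS P a z l)

/-- (GG8, no hypotheses.) PROOF. Word for word `Pool/Agent/Helper44/LM/M_GG.lean` (`StGG` of LM) with `8 ^ |T|` in place of `4 ^ |T|` and `64` in place of `32`. -/
def StGG8 : Prop := ∀ (Q I : Finset ℕ) (J Y : ℕ) (D : ℕ → ℕ), (∀ l ∈ Q, l.Prime) → (∀ j ∈ I, 1 ≤ D j ∧ D j ≤ Y) →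
  (∀ T ⊆ Q, ((I.filter (fun j : ℕ => ∀ l ∈ T, l ∣ D j)).card : ℝ) ≤ 8 ^ T.card * (J / ∏ l ∈ T, (l : ℝ) + 1)) →
  ∑ j ∈ I, ∏ l ∈ Q.filter (fun l => l ∣ D j), (1 + 8 / (l : ℝ)) ≤
    J * ∏ l ∈ Q, (1 + 64 / (l : ℝ) ^ 2) + ∏ l ∈ Q.filter (fun l => l ≤ Y), (1 + 64 / (l : ℝ))

/-- (GAP, assume `hG : StGG8`, `hM : StMT`.) The mean value of the correlations. PROOF. As the second part of `Pool/Agent/Helper66/LM/M_GAB.lean`: GG8 with `Q = QQ p w`, `I = (Icc 1 J).erase j'`, `D j = DD (r + P j) z`, `z = r + P j'`, positive (`y ≠ z`, `rA y z ≥ y ^ 2 - y (y + 1) + (y + 1) ^ 2 > 0`, `rB > 0` for positive `y`, `z`), and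
`D j ≤ Y = 400 (P (J + 1)) ^ 13`. For `l ∈ Q` (`l ∤ P`) the condition `l ∣ D j` means `j % l ∈ S l` with at most seven classes: `y ≡ z`, and at most two roots `y` of each of the quadratic polynomials `rA y z = (2 z ^ 2 - 2 z + 1) y ^ 2 + (3 z ^ 2 - 2 z) y + z ^ 2`, `rA z y = (z + 1)(2 z + 1) y ^ 2 - 2 z (z + 1) y + z ^ 2`,
`rB y z = (1 + 2 z) y ^ 2 + (2 z ^ 2 - 2 z) y + z ^ 2` (they are not zero modulo `l`: if `z = 0` the leading coefficient is `1`). The rest is unchanged (`64` for `32`, `8` for `4`). -/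
def StGAP : Prop := ∀ ε : ℝ, 0 < ε → ∃ p₁ : ℕ, ∀ p P : ℕ, p₁ ≤ p → 1 ≤ P → (∀ l : ℕ, l.Prime → l ∣ P → l ≤ p) →
  ∃ J₀ : ℕ, ∀ J r w : ℕ, J₀ ≤ J → 1 ≤ r → r ≤ P →
    ∀ j' ∈ Icc 1 J, ∑ j ∈ (Icc 1 J).erase j',
      ∏ l ∈ (QQ p w).filter (fun l => l ∣ DD (r + P * j) (r + P * j')), (1 + 8 / (l : ℝ)) ≤ (1 + ε) * J

/-- (VLP, assume `hL : StLOP`, `hM : StMT`.) PROOF. For `l ∈ QQ p w` (`l ≥ 11`, `l ∤ P`) let `g = 2 + js (y - 2) l ≤ 3`: `1 - |SS| / l ≥ 1 - g / l ≥ exp(- g / l - 9 / l ^ 2)` (`g / l ≤ 1 / 2`). So `VV ≥ exp(- 2 ∑_{l ≤ w} 1 / l - cs p w y - 9 ∑ 1 / l ^ 2) ≥ exp(- 2 log log w - 2 C - |cs| - 18)`. Model: `Pool/Agent/Helper71/LM/M_VLB.lean`. -/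
def StVLP : Prop := ∃ c : ℝ, 0 < c ∧ ∀ p w P a y : ℕ, 7 ≤ p → 3 ≤ w → (∀ l : ℕ, l.Prime → l ∣ P → l ≤ p) → 2 ≤ y →
  c * Real.exp (-|cs p w y|) / Real.log w ^ 2 ≤ VV p w P a y

/-- (CSM, no hypotheses.) Complete sums. PROOF. `∑_{t mod l} ((t ^ 2 - 4) / l) = -1`: `∑_t (1 + χ(t ^ 2 - 4))` is the number of the pairs `(t, u)` with `u ^ 2 = t ^ 2 - 4`, i.e. (`v = t - u`, `v' = t + u`, a bijection as `l ≠ 2`) of the `(v, v')` with `v v' = 4`: `l - 1`. (`quadraticChar_card_sqrts`; `js` depends only on `t` modulo `l`.)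
The map `j ↦ r + P j - 2` is a bijection modulo `l l'`, so by the Chinese remainder theorem the sum over a complete period `l l'` is `(-1)(-1) = 1`; there are `⌊J / (l l')⌋` of them and less than `l l'` other terms of absolute value at most one. (`r + P j ≥ 2`, no truncation.) -/
def StCSM : Prop := ∀ P r l l' J : ℕ, l.Prime → l'.Prime → 3 < l → 3 < l' → l ≠ l' → ¬ l ∣ P → ¬ l' ∣ P → 1 ≤ r → 1 ≤ P →
  |∑ j ∈ Icc 1 J, js (r + P * j - 2) l * js (r + P * j - 2) l'| ≤ J / ((l : ℝ) * l') + (l : ℝ) * l'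

open Classical in
/-- (SMA, assume `hC : StCSM`.) Mean square for the small primes. PROOF. `p₁ = 32`. `∑_{j ≤ J} cs p L (r + P j) ^ 2 = ∑_{l, l' ∈ QQ p L} (1 / (l l')) ∑_j js js'`; the diagonal is at most `J ∑ 1 / l ^ 2 ≤ J / p`; the other terms at most `∑ (1 / (l l')) (J / (l l') + l l') ≤ J / p ^ 2 + L ^ 2`. If `L ≤ p` then `cs = 0`; otherwise
`16 L ^ 2 ≤ L ^ 3 ≤ J`. Total `≤ J (1 / 32 + 1 / 1024 + 1 / 16) ≤ J / 8`, and Chebyshev. -/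
def StSMA : Prop := ∀ p P r J L : ℕ, 32 ≤ p → 1 ≤ P → (∀ l : ℕ, l.Prime → l ∣ P → l ≤ p) → 1 ≤ r → L ^ 3 ≤ J →
  (((Icc 1 J).filter (fun j : ℕ => 1 < |cs p L (r + P * j)|)).card : ℝ) ≤ J / 8

/-- (TGO, assume `hS : StSMA`, `hB : StBAD`, `hM : StMT`.) At least half of the `j` are good. PROOF. `p ≥ 32`. Let `L` be the largest integer with `L ^ 3 ≤ J`, `K = P (J + 1)`, `j0` the least integer with `256 K ^ 4 ≤ 2 ^ j0` (so `2 ^ j0 ≤ 512 K ^ 4`). For `I ≥ I₀` (depending on `p`, `P`, `c₁`): `p ≤ L < 2 ^ j0`, `j0 ≤ I`, and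
`2 ^ j0 ≤ L ^ 20` (`K ≤ P (J + 1)`, `L ≥ J ^ (1/3) / 2`). `QQ p (2 ^ I - 1)` is the disjoint union of `QQ p L`, of the primes in `(L, 2 ^ j0)` and of the `bp i`, `j0 ≤ i < I`. The second set contributes at most `∑ 1 / l ≤ log(log(2 ^ j0) / log L) + 2 C ≤ log 20 + 2 C`. So `A = 2 + log 20 + 2 C` is good if (i) `|cs p L y| ≤ 1`: all but `J / 8` of the `j`
(SMA); (ii) `∑_{j0 ≤ i < I} |bl (y - 2) i| ≤ 1`: by BAD (`t = y - 2 ∈ [4, K]`, `j ↦ t` injective) all but `C I log I log K ≤ J / 8` of them (`J ≥ c₁ I ^ 2`, `K ≤ P (I ^ 3 + 1)`, `I ≥ I₀`); (iii) `6 ≤ y`: all `j ≥ 6`, `5 ≤ J / 8`. -/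
def StTGO : Prop := ∃ A : ℝ, 0 < A ∧ ∀ p P : ℕ, 32 ≤ p → 1 ≤ P → (∀ l : ℕ, l.Prime → l ∣ P → l ≤ p) →
  ∀ c₁ : ℝ, 0 < c₁ → ∃ I₀ : ℕ, ∀ I J r : ℕ, I₀ ≤ I → c₁ * (I : ℝ) ^ 2 ≤ J → J ≤ I ^ 3 → 1 ≤ r → r ≤ P →
    (J : ℝ) ≤ 2 * ((TT A p (2 ^ I - 1) P r J).card : ℝ)

open Classical in
/-- (ONE, assume `hS : StSV6`, `hL : StLOP`.) One `y`. PROOF. `l ∣ ff (a + P m) y` iff `m % l ∈ SS P a y l`; SV6 with `Q = QQ p w`, `S l = SS P a y l`, `|S l| ≤ 3` (LOP, `js ≤ 1`). -/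
def StONE : Prop := ∀ ε : ℝ, 0 < ε → ∃ B : ℕ, ∀ p P a y w M : ℕ, 24 ≤ p → (∀ l : ℕ, l.Prime → l ∣ P → l ≤ p) → 2 ≤ w → 2 ≤ y →
  |(((Icc 1 M).filter (fun m : ℕ => Sf p w ((a : ℤ) + P * m) y)).card : ℝ) - M * VV p w P a y| ≤
    ε * (M * VV p w P a y) + (w : ℝ) ^ B

open Classical in
/-- (PRP, assume `hS : StSV6`, `hL : StLOP`.) One pair. PROOF. SV6 with `Q = QQ p w`, `S l = SS P a y l ∪ SS P a z l` (at most six classes). Let `g`, `g' ≤ 3` be the two numbers of classes. If `l ∤ DD y z` then `|S l| = g + g'` and `1 - (g + g') / l ≤ (1 - g / l)(1 - g' / l)`; otherwise `1 - |S l| / l ≤ 1 ≤ (1 - g / l)(1 - g' / l)(1 + 8 / l)`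
(`(1 - 3 / l) ^ 2 (1 + 8 / l) ≥ 1` for `l ≥ 24`). Model: `Pool/Agent/Helper72/LM/M_PR2.lean`. -/
def StPRP : Prop := ∀ ε : ℝ, 0 < ε → ∃ B : ℕ, ∀ p P a y z w M : ℕ, 24 ≤ p → (∀ l : ℕ, l.Prime → l ∣ P → l ≤ p) → 2 ≤ w →
  2 ≤ y → 2 ≤ z →
  (((Icc 1 M).filter (fun m : ℕ => Sf p w ((a : ℤ) + P * m) y ∧ Sf p w ((a : ℤ) + P * m) z)).card : ℝ) ≤
    (1 + ε) * (M * (VV p w P a y * VV p w P a z) *
      ∏ l ∈ (QQ p w).filter (fun l => l ∣ DD y z), (1 + 8 / (l : ℝ))) + (w : ℝ) ^ B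

/-- (MOA, assume `hO : StONE`.) The first moment. PROOF. `∑_m XX = ∑_{j ∈ TT} V_j⁻¹ #{m : Sf ..} ≥ ∑_{j ∈ TT} V_j⁻¹ ((1 - ε) M V_j - w ^ B) ≥ (1 - ε) M |TT| - |TT| Λ w ^ B` (`0 < V_j`, `V_j⁻¹ ≤ Λ`; `y = r + P j ≥ 6` for `j ∈ TT`). -/
def StMOA : Prop := ∀ ε : ℝ, 0 < ε → ∃ B : ℕ, ∀ (A Λ : ℝ) (p w P a r J M : ℕ), 24 ≤ p → 2 ≤ w →
  (∀ l : ℕ, l.Prime → l ∣ P → l ≤ p) → 1 ≤ Λ → (∀ j ∈ TT A p w P r J, 1 ≤ Λ * VV p w P a (r + P * j)) →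
  (1 - ε) * (M * ((TT A p w P r J).card : ℝ)) - (TT A p w P r J).card * Λ * (w : ℝ) ^ B ≤ ∑ m ∈ Icc 1 M, XX A p w P a r J m

/-- (MOB, assume `hO : StONE`, `hP : StPRP`, `hG : StGAP`.) The second moment. `τ = |TT|`. PROOF. `∑_m XX ^ 2 = ∑_{j, j' ∈ TT} (V_j V_j')⁻¹ #{m : ..}`. `j = j'`: ONE with `ε = 1`: `∑_j V_j⁻² (2 M V_j + w ^ B) ≤ 2 M τ Λ + τ Λ ^ 2 w ^ B`. `j ≠ j'`: PRP: `(1 + ε) M ∑_{j'} ∑_{j ≠ j'} corr + τ ^ 2 Λ ^ 2 w ^ B`, where `corr ≥ 1` and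
`∑_{j ∈ TT, j ≠ j'} corr ≤ τ + ∑_{j ≤ J, j ≠ j'} (corr - 1) ≤ τ + (1 + ε) J - (J - 1) = τ + ε J + 1` by GAP. (`w ^ B` with the maximum of the exponents, `τ ≤ τ ^ 2`.) Model: `Pool/Agent/Helper81/LM/M_MO2.lean`. -/
def StMOB : Prop := ∀ ε : ℝ, 0 < ε → ∃ B p₁ : ℕ, 24 ≤ p₁ ∧ ∀ p P : ℕ, p₁ ≤ p → 1 ≤ P →
  (∀ l : ℕ, l.Prime → l ∣ P → l ≤ p) → ∃ J₀ : ℕ, ∀ (A Λ : ℝ) (J a r w M : ℕ), J₀ ≤ J → 1 ≤ r → r ≤ P → 2 ≤ w → 1 ≤ Λ →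
    (∀ j ∈ TT A p w P r J, 1 ≤ Λ * VV p w P a (r + P * j)) →
    ∑ m ∈ Icc 1 M, XX A p w P a r J m ^ 2 ≤
      (1 + ε) * (M * (((TT A p w P r J).card : ℝ) * ((TT A p w P r J).card + ε * J + 1))) +
        2 * (M * ((TT A p w P r J).card : ℝ) * Λ) + 2 * (((TT A p w P r J).card : ℝ) ^ 2 * Λ ^ 2 * (w : ℝ) ^ B)

/-- (CHP, assume `h1 : StMOA`, `h2 : StMOB`, `hT : StTGO`, `hV : StVLP`.) Chebyshev. PROOF. `A` from TGO, `c` from VLP, `w = 2 ^ I - 1`, `Λ = e ^ A (log w) ^ 2 / c` (`≥ 1` for large `M`; `Λ V_j ≥ 1` for `j ∈ TT` by VLP; `Λ ≤ (e ^ A / c) (log M) ^ 2`). `η = ε / 16`, `η ≤ 1 / 4`: MOA and MOB with `η`, `B` the maximum of the exponents,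
`p₁ ≥ 32`, `δ = 1 / (2 B + 2)`, so `w ^ B ≤ M ^ (1/2)`. `C = 4 e ^ A / (c η)`. TGO with `c₁ = C / 4` (`I ≤ log M / log 2 ≤ 2 log M`, `J ≥ C (log M) ^ 2 ≥ c₁ I ^ 2`; `J ≤ C (log M) ^ 2 + 1 ≤ I ^ 3` for large `M`, as `2 ^ (I + 1) > M ^ δ`) gives `τ = |TT| ≥ J / 2`. `#{XX = 0} τ ^ 2 ≤ ∑ (XX - τ) ^ 2 = ∑ XX ^ 2 - 2 τ ∑ XX + M τ ^ 2`
`≤ M τ ^ 2 ((1 + η)(1 + 2 η + 1 / τ) - 2 (1 - η) + 1) + 2 M τ Λ + 4 τ ^ 2 Λ ^ 2 w ^ B ≤ M τ ^ 2 (7 η + 2 / τ) + 2 M τ Λ + 4 τ ^ 2 Λ ^ 2 w ^ B`. So `#{XX = 0} ≤ M (7 η + 2 / τ + 2 Λ / τ) + 4 Λ ^ 2 w ^ B`; `2 Λ / τ ≤ 4 e ^ A / (c C) = η`, `2 / τ ≤ η`, `4 Λ ^ 2 w ^ B ≤ η M` for large `M`. Model: `Pool/Agent/Helper98/LM/M_CHA.lean`. -/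
def StCHP : Prop := ∃ A : ℝ, 0 < A ∧ ∀ ε : ℝ, 0 < ε → ∃ δ C : ℝ, 0 < δ ∧ δ ≤ 1 ∧ 0 < C ∧ ∃ p₁ : ℕ, 32 ≤ p₁ ∧ ∀ p P : ℕ, p₁ ≤ p →
  1 ≤ P → (∀ l : ℕ, l.Prime → l ∣ P → l ≤ p) → ∃ M₀ : ℕ, ∀ M I J a r : ℕ, M₀ ≤ M → (2 : ℝ) ^ I ≤ (M : ℝ) ^ δ →
    (M : ℝ) ^ δ < 2 ^ (I + 1) → C * Real.log M ^ 2 ≤ J → (J : ℝ) ≤ C * Real.log M ^ 2 + 1 → 1 ≤ r → r ≤ P →
    (((Icc 1 M).filter (fun m : ℕ => XX A p (2 ^ I - 1) P a r J m = 0)).card : ℝ) ≤ ε * M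

/-- (CHQ, assume `h1 : StMOA`, `h2 : StMOB`, `hT : StTGO`, `hV : StVLP`.) Cauchy-Schwarz. PROOF. Notation as in CHP; MOA and MOB with `ε = 1 / 2`, `δ = 1 / (2 B + 2)`, `Λ ≤ K (log M) ^ 2`, `K = e ^ A / c`; TGO with `c₁ / 4` gives `J ≤ 2 τ`. `∑ XX ≥ M τ / 2 - τ Λ w ^ B ≥ M τ / 4`;
`∑ XX ^ 2 ≤ (3/2) M τ (τ + J / 2 + 1) + 2 M τ Λ + 2 τ ^ 2 Λ ^ 2 w ^ B ≤ M (6 τ ^ 2 + 2 τ Λ)` for large `M`; `(∑ XX) ^ 2 ≤ #{XX > 0} ∑ XX ^ 2` (`XX ≥ 0`), so `#{XX > 0} ≥ M τ / (96 τ + 32 Λ) ≥ η M`, `η = c₁ / (96 c₁ + 64 K)` (the quotient increases with `τ ≥ c₁ (log M) ^ 2 / 2`). Model: `Pool/Agent/Helper55/LM/M_CHB.lean`. -/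
def StCHQ : Prop := ∃ A δ : ℝ, 0 < A ∧ 0 < δ ∧ δ ≤ 1 ∧ ∃ p₁ : ℕ, 32 ≤ p₁ ∧ ∀ p P : ℕ, p₁ ≤ p → 1 ≤ P →
  (∀ l : ℕ, l.Prime → l ∣ P → l ≤ p) → ∀ c₁ : ℝ, 0 < c₁ → ∃ η : ℝ, 0 < η ∧ ∃ M₀ : ℕ, ∀ M I J a r : ℕ, M₀ ≤ M →
    (2 : ℝ) ^ I ≤ (M : ℝ) ^ δ → (M : ℝ) ^ δ < 2 ^ (I + 1) → c₁ * Real.log M ^ 2 ≤ J → (J : ℝ) ≤ c₁ * Real.log M ^ 2 + 1 →
    1 ≤ r → r ≤ P →
    η * M ≤ (((Icc 1 M).filter (fun m : ℕ => 0 < XX A p (2 ^ I - 1) P a r J m)).card : ℝ)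

/-- (RRP, no hypotheses.) The class of `y`. PROOF. For each prime `q` there is `y_q` with `q ∤ ff a y_q`: `q = 2`: `y = 1` (`2 a - 1` and `a ^ 2 - a + 1` are odd); `q = 3`: `y = 1` if `a ≡ 0, 1`, `y = 0` if `a ≡ 2` (`fa a 0 = a`, `fb a 0 = a ^ 2`); `q ≥ 5`: `fa a y = a + (a - 1) y` and `fb a y = (1 + a) y ^ 2 - 2 a y + a ^ 2` are not zero as polynomials
modulo `q` (coefficients), so at most three classes are excluded. Chinese remainder theorem (`primorial p` is the product of the different primes `q ≤ p`), and `1 ≤ r ≤ primorial p` as a representative. -/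
def StRRP : Prop := ∀ p a : ℕ, ∃ r : ℕ, 1 ≤ r ∧ r ≤ primorial p ∧ ∀ q : ℕ, q.Prime → q ≤ p → ¬ (q : ℤ) ∣ ff a r

/-- (EXP, no hypotheses.) From `XX ≠ 0` to `y`. PROOF. Some `j ∈ TT` is counted, `y = r + P j ≤ P (J + 1) < n`, `n = a + P m`. `0 < fa n y = n + (n - 1) y ≤ n ^ 2`, `0 < fb n y ≤ n ^ 3` (`y ≤ n - 1`). Let `q` be a prime factor of one of them: if `q ≤ p` then `q ∣ P` and `ff n y ≡ ff a r` modulo `q`: contradiction; if `p < q ≤ w` then `q ∈ QQ p w`: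
contradiction. So `q > w` and `w ^ Ω ≤ n ^ 3`. Model: `Pool/Agent/Helper84/LM/M_EX.lean`. -/
def StEXP : Prop := ∀ (A : ℝ) (p w J n r : ℕ), 2 ≤ w → 1 ≤ r → r ≤ primorial p → primorial p * (J + 1) < n →
  (∀ q : ℕ, q.Prime → q ≤ p → ¬ (q : ℤ) ∣ ff ((n % primorial p : ℕ) : ℤ) r) →
  XX A p w (primorial p) (n % primorial p) r J (n / primorial p) ≠ 0 →
  ∃ y : ℕ, 1 ≤ y ∧ y < n ∧ y ≤ primorial p * (J + 1) ∧
    (ArithmeticFunction.cardFactors ((n - y) + n * y) : ℝ) * Real.log w ≤ 3 * Real.log n ∧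
    (ArithmeticFunction.cardFactors ((n - y) ^ 2 + n * y ^ 2) : ℝ) * Real.log w ≤ 3 * Real.log n

/-- the property of `n`: some `1 ≤ y ≤ C (log n) ^ 2`, `y < n`, is such that with `x = n - y` both `x + n y` and `x ^ 2 + n y ^ 2` have at most `R` prime factors -/
def Good (C : ℝ) (R n : ℕ) : Prop := ∃ y : ℕ, 1 ≤ y ∧ y < n ∧ (y : ℝ) ≤ C * Real.log n ^ 2 ∧
  ArithmeticFunction.cardFactors ((n - y) + n * y) ≤ R ∧ ArithmeticFunction.cardFactors ((n - y) ^ 2 + n * y ^ 2) ≤ R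

open Classical in
/-- (FNP, assume `h : StCHP`, `hE : StEXP`, `hR : StRRP`.) PROOF. As `Pool/Agent/Helper87/LM/M_FNA.lean`: CHP with `ε / 2`; `p = p₁`, `P = primorial p`, `M = N / P`, `J = ⌈C (log M) ^ 2⌉`, `I` with `2 ^ I ≤ M ^ δ < 2 ^ (I + 1)`, `w = 2 ^ I - 1`. For each `a < P` take `r` from RRP. A number `n ≤ N`, `n ≥ √N` (`> P (J + 1)` for large `N`) has `a = n % P`, `m = n / P ∈ Icc 1 M`.
At most `P (ε / 2) M ≤ (ε / 2) N` of the `n` have `XX = 0`; for the others EXP gives `y ≤ P (J + 1) ≤ P (C (log N) ^ 2 + 2) ≤ C' (log n) ^ 2` (`log N ≤ 2 log n`, `C' = 8 P (C + 1)`), and `Ω ≤ 3 log n / log w ≤ 6 / δ` (`w ≥ M ^ δ / 4 ≥ N ^ (δ / 2)` for large `N`), `R = ⌈6 / δ⌉`. The `n < √N` are at most `(ε / 2) N`. -/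
def StFNP : Prop := ∀ ε : ℝ, 0 < ε → ∃ C : ℝ, 0 < C ∧ ∃ R N₀ : ℕ, ∀ N : ℕ, N₀ ≤ N →
  (((Icc 1 N).filter (fun n => ¬ Good C R n)).card : ℝ) ≤ ε * N

open Classical in
/-- (FNQ, assume `h : StCHQ`, `hE : StEXP`, `hR : StRRP`.) PROOF. As `Pool/Agent/Helper18/LM/M_FNB.lean`, with `p = p₁`, `P = primorial p`, `R = ⌈6 / δ⌉`, `c₁ = c / (8 P)`, `a = 0`, `r` from RRP: at least `η M` of the `m ∈ Icc 1 M` have `XX > 0`; those with `P m ≥ √N` give `n = P m ≤ N` which is good (`P (J + 1) ≤ P (c₁ (log N) ^ 2 + 2) ≤ (c / 4) (log N) ^ 2 ≤ c (log n) ^ 2`). -/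
def StFNQ : Prop := ∃ R : ℕ, ∀ c : ℝ, 0 < c → ∃ η : ℝ, 0 < η ∧ ∃ N₀ : ℕ, ∀ N : ℕ, N₀ ≤ N →
  η * N ≤ (((Icc 1 N).filter (fun n => Good c R n)).card : ℝ)

end Pool.Agent.Helper6.LP
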